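import Pool.Agent.H64.STM.Targets

/-!
# MP_fd35e1_ag, row CBS: the contractions of the diagram `dg`
-/

set_option autoImplicit false

open Matrix Pool.Agent.H64.CC Pool.Agent.H2.NL Pool.Agent.H2.KM Pool.Agent.H64.EV
  Pool.Agent.H64.FTM Pool.Agent.H64.STM

namespace Pool.Agent.H89.STM

section

variable {K : Type} [Field K] {I : Type} [Fintype I] [DecidableEq I] (F : OForm K I)

lemma dg_cons (k : ℕ) (a b : I) (w : Fin (2 * k) → I) :
    dg F (k + 1) (Fin.cons a (Fin.cons b w) : Fin (2 * k + 2) → I) = F.ω a b * dg F k w := by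
  change tp 2 (two F.ω) (omk F.ω k)
    (List.ofFn (Fin.cons a (Fin.cons b w) : Fin (2 * k + 2) → I)) = _
  rw [List.ofFn_succ, List.ofFn_succ]
  rfl

lemma sg_sq (p : Bool) : sg K p * sg K p = 1 := by
  cases p <;> simp [sg]

lemma ks_self (p : Bool) : ks K p p = sg K p := by
  cases p <;> simp [sg, ks]

lemma om_st (a : I) : F.c a * F.ω a (F.st a) = sg K (F.o a) := by
  unfold OForm.ω
  rw [Matrix.of_apply, if_pos rfl, F.c_st]
  have h1 := F.c_ne a
  have h2 : sg K (F.o a) ≠ 0 := by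
    intro h
    have := sg_sq (K := K) (F.o a)
    rw [h, mul_zero] at this
    exact zero_ne_one this
  rw [mul_inv, mul_comm (sg K (F.o a))⁻¹, ← mul_assoc, mul_inv_cancel₀ h1, one_mul]
  exact inv_eq_of_mul_eq_one_left (sg_sq _)

end

theorem pf_CBS (hKAP : T_KAP) : T_CBS := by
  intro K _ I _ _ F k
  refine ⟨fun w => ?_, fun σ h1 h2 h3 hk w => ?_⟩
  · unfold cf OForm.sd
    rw [Finset.sum_mul]
    refine Finset.sum_congr rfl fun a _ => ?_
    rw [dg_cons, ← mul_assoc, om_st]
  · obtain ⟨k, rfl⟩ : ∃ k', k = k' + 1 := ⟨k - 1, by omega⟩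
    have b1 : 1 + 1 < 2 * (k + 1 + 1) := by omega
    have hσ : σ = Equiv.swap ⟨1, Nat.lt_of_succ_lt b1⟩ ⟨1 + 1, b1⟩ := by
      apply Equiv.ext
      intro i
      by_cases e1 : i.1 = 1
      · have e : i = ⟨1, Nat.lt_of_succ_lt b1⟩ := Fin.ext e1
        rw [e, Equiv.swap_apply_left]
        exact Fin.ext (h1 _ rfl)
      · by_cases e2 : i.1 = 2
        · have e : i = ⟨1 + 1, b1⟩ := Fin.ext e2
          rw [e, Equiv.swap_apply_right]
          exact Fin.ext (h2 _ rfl)
        · rw [h3 i e1 e2, Equiv.swap_apply_of_ne_of_ne]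
          · intro h
            exact e1 (congrArg Fin.val h)
          · intro h
            exact e2 (congrArg Fin.val h)
    obtain ⟨w0, w1, w2, rfl⟩ : ∃ (w0 w1 : I) (w2 : Fin (2 * k) → I),
        w = (Fin.cons w0 (Fin.cons w1 w2) : Fin (2 * k + 2) → I) :=
      ⟨w 0, w 1, fun i => w i.succ.succ, by
        funext i
        refine Fin.cases rfl (fun i => Fin.cases rfl (fun i => rfl) i) i⟩
    have hword : ∀ a : I, (fun i => (Fin.cons a (Fin.cons (F.st a)
        (Fin.cons w0 (Fin.cons w1 w2) : Fin (2 * k + 2) → I)) : Fin (2 * k + 2 + 2) → I) (σ i)) =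
        (Fin.cons a (Fin.cons w0 (Fin.cons (F.st a) (Fin.cons w1 w2) : Fin (2 * k + 2) → I)) :
          Fin (2 * k + 2 + 2) → I) := by
      intro a
      funext i
      by_cases e0 : i.1 = 0
      · have e : i = (0 : Fin (2 * k + 2 + 2)) := Fin.ext e0
        have e' : σ i = (0 : Fin (2 * k + 2 + 2)) := by
          rw [h3 i (by omega) (by omega)]
          exact e
        rw [e', e]
        rfl
      · by_cases e1 : i.1 = 1
        · have e : i = (Fin.succ 0 : Fin (2 * k + 2 + 2)) := Fin.ext e1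
          have e' : σ i = (Fin.succ (Fin.succ 0) : Fin (2 * k + 2 + 2)) := Fin.ext (h1 i e1)
          rw [e', e]
          rfl
        · by_cases e2 : i.1 = 2
          · have e : i = (Fin.succ (Fin.succ 0) : Fin (2 * k + 2 + 2)) := Fin.ext e2
            have e' : σ i = (Fin.succ 0 : Fin (2 * k + 2 + 2)) := Fin.ext (h2 i e2)
            rw [e', e]
            rfl
          · have e' : σ i = i := h3 i e1 e2
            have hi := i.2
            obtain ⟨j, hj⟩ : ∃ j : Fin (2 * k + 1), i =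
                (Fin.succ (Fin.succ (Fin.succ j)) : Fin (2 * k + 2 + 2)) :=
              ⟨⟨i.1 - 3, by omega⟩, Fin.ext (by simp only [Fin.val_succ]; omega)⟩
            rw [e', hj]
            rfl
    have hterm : ∀ a : I, ac F.o σ (dg F (k + 1 + 1)) (Fin.cons a (Fin.cons (F.st a)
        (Fin.cons w0 (Fin.cons w1 w2) : Fin (2 * k + 2) → I)) : Fin (2 * k + 2 + 2) → I) =
        ks K (F.o a) (F.o w0) * (F.ω a w0 * (F.ω (F.st a) w1 * dg F k w2)) := by
      intro a
      have h4 := (hKAP K I F.o (2 * (k + 1 + 1))).2.2.2 1 b1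
        (Fin.cons a (Fin.cons (F.st a) (Fin.cons w0 (Fin.cons w1 w2) : Fin (2 * k + 2) → I)) :
          Fin (2 * k + 2 + 2) → I)
      rw [← hσ] at h4
      have h5 : dg F (k + 1 + 1) (Fin.cons a (Fin.cons w0 (Fin.cons (F.st a) (Fin.cons w1 w2) :
          Fin (2 * k + 2) → I)) : Fin (2 * k + 2 + 2) → I) =
          F.ω a w0 * (F.ω (F.st a) w1 * dg F k w2) := by
        rw [dg_cons F (k + 1) a w0, dg_cons F k (F.st a) w1]
      unfold ac
      rw [hword a, h5, h4]
      have h6 : F.o (F.st a) = F.o a := F.o_st a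
      rw [← h6]
      rfl
    have hR : dg F (k + 1) (Fin.cons w0 (Fin.cons w1 w2) : Fin (2 * k + 2) → I) =
        F.ω w0 w1 * dg F k w2 := dg_cons F k w0 w1 w2
    rw [hR]
    unfold cf
    have hsum : ∀ a ∈ (Finset.univ : Finset I), F.c a * ac F.o σ (dg F (k + 1 + 1))
        (Fin.cons a (Fin.cons (F.st a)
        (Fin.cons w0 (Fin.cons w1 w2) : Fin (2 * k + 2) → I)) : Fin (2 * k + 2 + 2) → I) =
        F.c a * (ks K (F.o a) (F.o w0) * (F.ω a w0 * (F.ω (F.st a) w1 * dg F k w2))) :=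
      fun a _ => by rw [hterm]
    refine (Finset.sum_congr rfl hsum).trans ?_
    rw [Finset.sum_eq_single (F.st w0)]
    · have h7 : F.ω (F.st w0) w0 = (F.c w0)⁻¹ := by
        unfold OForm.ω
        rw [Matrix.of_apply, if_pos (F.st_st w0).symm]
      rw [h7, F.st_st, F.o_st, ks_self, F.c_st]
      have h8 := F.c_ne w0
      have h9 := sg_sq (K := K) (F.o w0)
      calc sg K (F.o w0) * F.c w0 * (sg K (F.o w0) * ((F.c w0)⁻¹ * (F.ω w0 w1 * dg F k w2)))
          = (sg K (F.o w0) * sg K (F.o w0)) * (F.c w0 * (F.c w0)⁻¹) * (F.ω w0 w1 * dg F k w2) := by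
            ring
        _ = F.ω w0 w1 * dg F k w2 := by rw [h9, mul_inv_cancel₀ h8, one_mul, one_mul]
    · intro a _ ha
      have h7 : F.ω a w0 = 0 := by
        unfold OForm.ω
        rw [Matrix.of_apply, if_neg]
        intro h
        apply ha
        rw [h, F.st_st]
      rw [h7, zero_mul, mul_zero, mul_zero]
    · intro h
      exact absurd (Finset.mem_univ _) h

end Pool.Agent.H89.STM
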